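import Mathlib
set_option autoImplicit false

/-!
# The homology classes of highway paths need not form a polyhedron

The network has four strands in a disc with two holes `I` and `D`; all strands are named together with
their crossings:

`S`: `u`, `y₀`, `x₀`, sink;  `T`: source, `y₀`, `x`, sink on `I`;
`A`: source, `w`, `x`, `y`, `x₀`, `v`;  `B`: source on `D`, `y`, `w`, sink.

Highway paths from `u` to `v`: the path `u y₀ x₀ v`, and the paths `u y₀ x y (w x y)ⁿ x₀ v`.  The cycle
`y w x y` goes around the hole `I`, and the hole `D` is between the two kinds of paths.  So the set of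
classes is `{0} ∪ {d + n c : n ≥ 0}`, where `c` and `d` are independent.  A polyhedron that contains
this set contains `c`.
-/

namespace Pool.Agent.Results.MP_3d6951_co.DetachedCycle

open FreeAbelianGroup

/-- An oriented network in a compact oriented surface, given by its darts (edges with a direction of
travel; a dart is attached to its initial vertex).  `rev` reverses the direction of travel, `rot` is
the next dart counterclockwise around the initial vertex, `fwd` tells the darts which are travelled in
the direction of the edge.  The orbits of `d ↦ rot⁻¹ (rev d)` are the faces on the left of darts.  The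
surface is obtained by gluing a disc to every face with `disc` and an annulus (with a boundary
component of the surface at its other end) to every other face; the vertices of degree one are on
these boundary components. -/
structure Network where
  Dart : Type
  fin : Fintype Dart
  rev : Dart → Dart
  rot : Equiv.Perm Dart
  fwd : Dart → Prop
  disc : Dart → Prop
  rev_rev : ∀ d, rev (rev d) = d
  fwd_rev : ∀ d, fwd (rev d) ↔ ¬ fwd d
  disc_face : ∀ d, disc (rot.symm (rev d)) ↔ disc d
  /-- A vertex has degree one and is on the boundary, or it has four darts, in counterclockwise order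
  two of incoming edges and two of outgoing edges. -/
  vertex : ∀ d, (rot d = d ∧ ¬ disc d) ∨ ∃ e, rot.SameCycle e d ∧ rot (rot (rot (rot e))) = e ∧
    ¬ fwd e ∧ ¬ fwd (rot e) ∧ fwd (rot (rot e)) ∧ fwd (rot (rot (rot e)))

namespace Network

variable (N : Network)

/-- The network is connected. -/
def Connected : Prop :=
  ∀ s : Set N.Dart, s.Nonempty → (∀ d ∈ s, N.rot d ∈ s ∧ N.rev d ∈ s) → s = Set.univ

/-- The dart of a boundary vertex. -/
def IsBoundary (d : N.Dart) : Prop := N.rot d = d

/-- After the dart `d` one can travel along `d'`. -/
def Next (d d' : N.Dart) : Prop := N.rot.SameCycle (N.rev d) d'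

/-- A walk (along and against the directions of edges) from the boundary vertex of `u` to the boundary
vertex of `v`. -/
def Walk (u v : N.Dart) (l : List N.Dart) : Prop :=
  (l = [] ∧ u = v) ∨ (l.head? = some u ∧ l.getLast? = some (N.rev v) ∧ l.IsChain N.Next)

/-- A step of a highway path: travel along edges in their directions, and if `e₁, e₂, f₁, f₂` are the
darts of a vertex in counterclockwise order, `e₁, e₂` of incoming and `f₁, f₂` of outgoing edges, do
not go from `e₂` to `f₂`. -/
def Step (d d' : N.Dart) : Prop :=
  N.Next d d' ∧ ¬ ∃ e, ¬ N.fwd e ∧ ¬ N.fwd (N.rot e) ∧ N.rev d = N.rot e ∧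
    d' = N.rot (N.rot (N.rot e))

/-- A highway path from the boundary vertex of `u` to the boundary vertex of `v`. -/
def Highway (u v : N.Dart) (l : List N.Dart) : Prop :=
  N.Walk u v l ∧ (∀ d ∈ l, N.fwd d) ∧ l.IsChain N.Step

/-- The boundary of the face on the left of `d`. -/
noncomputable def faceSum (d : N.Dart) : FreeAbelianGroup N.Dart :=
  ∑ i ∈ Finset.range (Function.minimalPeriod (fun x => N.rot.symm (N.rev x)) d),
    of ((fun x => N.rot.symm (N.rev x))^[i] d)

/-- The chains that are zero in the surface: an edge travelled in both directions, and the boundaries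
of discs. -/
def relations : AddSubgroup (FreeAbelianGroup N.Dart) :=
  AddSubgroup.closure ({x | ∃ d, x = of d + of (N.rev d)} ∪ {x | ∃ d, N.disc d ∧ x = N.faceSum d})

/-- The boundary of a chain, in the free abelian group on the vertices. -/
noncomputable def boundary : FreeAbelianGroup N.Dart →+
    FreeAbelianGroup (Quotient (Equiv.Perm.SameCycle.setoid N.rot)) :=
  lift fun d => of (Quotient.mk (Equiv.Perm.SameCycle.setoid N.rot) (N.rev d)) -
    of (Quotient.mk (Equiv.Perm.SameCycle.setoid N.rot) d)

/-- The first homology group of the surface: cycles modulo relations. -/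
noncomputable def H1 : AddSubgroup (FreeAbelianGroup N.Dart ⧸ N.relations) :=
  N.boundary.ker.map (QuotientAddGroup.mk' N.relations)

/-- The chain of a walk. -/
def chain (l : List N.Dart) : FreeAbelianGroup N.Dart := (l.map of).sum

/-- `H(u,v)` with the basepath `p`. -/
def classes (u v : N.Dart) (p : List N.Dart) : Set N.H1 :=
  {x | ∃ l, N.Highway u v l ∧
    (x : FreeAbelianGroup N.Dart ⧸ N.relations) = QuotientAddGroup.mk (N.chain l - N.chain p)}

end Network

/-- The set `X` is the set of elements of the abelian group `H` (free of finite rank in the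
application) in a polyhedron: the set of solutions of finitely many inequalities `φ x ≤ b`. -/
def IsPolyhedron {H : Type*} [AddCommGroup H] (X : Set H) : Prop :=
  ∃ (m : ℕ) (φ : Fin m → H →+ ℝ) (b : Fin m → ℝ), X = {x | ∀ i, φ i x ≤ b i}

/-! ### General facts -/

namespace Network

variable (N : Network)

theorem boundary_walk {u v : N.Dart} {l : List N.Dart} (h : N.Walk u v l) :
    N.boundary (N.chain l) =
      of (Quotient.mk (Equiv.Perm.SameCycle.setoid N.rot) v) -
        of (Quotient.mk (Equiv.Perm.SameCycle.setoid N.rot) u) := by
  rcases h with ⟨rfl, rfl⟩ | ⟨h1, h2, h3⟩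
  · simp [chain]
  · induction l generalizing u with
    | nil => simp at h1
    | cons a l ih =>
      simp only [List.head?_cons, Option.some.injEq] at h1
      subst h1
      cases l with
      | nil =>
        simp only [List.getLast?_singleton, Option.some.injEq] at h2
        simp [chain, boundary, h2, N.rev_rev]
      | cons b l =>
        rw [List.isChain_cons_cons] at h3
        have h4 := ih (u := b) rfl (by simpa using h2) h3.2
        have h5 : N.chain (a :: b :: l) = of a + N.chain (b :: l) := by simp [chain]
        have h6 : Quotient.mk (Equiv.Perm.SameCycle.setoid N.rot) (N.rev a) =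
          Quotient.mk (Equiv.Perm.SameCycle.setoid N.rot) b := Quotient.sound h3.1
        rw [h5, map_add, h4, boundary, lift_apply_of, h6]
        abel

end Network

/-! ### The network -/

/-- The next dart counterclockwise. -/
def rotTable : Fin 28 → Fin 28 :=
  ![0, 7, 8, 20, 19, 5, 6, 2, 1, 16, 15, 11, 12, 26, 25, 9, 10, 23, 24, 3, 4, 21, 22, 18, 17, 13,
    14, 27]

/-- The next dart clockwise. -/
def invTable : Fin 28 → Fin 28 :=
  ![0, 8, 7, 19, 20, 5, 6, 1, 2, 15, 16, 11, 12, 25, 26, 10, 9, 24, 23, 4, 3, 21, 22, 17, 18, 14,
    13, 27]

/-- The vertices of darts. -/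
def vtx : Fin 28 → Fin 13 :=
  ![5, 0, 0, 1, 1, 6, 7, 0, 0, 2, 2, 8, 9, 4, 4, 2, 2, 3, 3, 1, 1, 10, 11, 3, 3, 4, 4, 12]

/-- The first incoming dart of the vertex (if the vertex has degree four). -/
def firstIn : Fin 28 → Fin 28 :=
  ![0, 1, 1, 19, 19, 0, 0, 1, 1, 15, 15, 0, 0, 25, 25, 15, 15, 17, 17, 19, 19, 0, 0, 17, 17, 25, 25,
    0]

/-- The reversed dart: `2 e` is the edge `e` in its direction, `2 e + 1` against it. -/
def revTable (d : Fin 28) : Fin 28 :=
  ![1, 0, 3, 2, 5, 4, 7, 6, 9, 8, 11, 10, 13, 12, 15, 14, 17, 16, 19, 18, 21, 20, 23, 22, 25, 24,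
    27, 26] d

/-- The rotation. -/
def rotPerm : Equiv.Perm (Fin 28) where
  toFun := rotTable
  invFun := invTable
  left_inv := by decide +kernel
  right_inv := by decide +kernel

theorem samecycle_of_iterate {d e : Fin 28} (k : ℕ) (h : (rotPerm ^ k) e = d) :
    rotPerm.SameCycle e d := ⟨k, by simpa using h⟩

/-- The network. -/
abbrev net : Network where
  Dart := Fin 28
  fin := inferInstance
  rev := revTable
  rot := rotPerm
  fwd d := d.val % 2 = 0
  disc _ := False
  rev_rev := by decide +kernel
  fwd_rev := by decide +kernel
  disc_face _ := Iff.rfl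
  vertex := by
    have h : ∀ d : Fin 28, (rotPerm d = d) ∨ ((∃ k : Fin 4, (rotPerm ^ k.val) (firstIn d) = d) ∧
        rotPerm (rotPerm (rotPerm (rotPerm (firstIn d)))) = firstIn d ∧
        ¬ (firstIn d).val % 2 = 0 ∧ ¬ (rotPerm (firstIn d)).val % 2 = 0 ∧
        (rotPerm (rotPerm (firstIn d))).val % 2 = 0 ∧
        (rotPerm (rotPerm (rotPerm (firstIn d)))).val % 2 = 0) := by decide +kernel
    intro d
    rcases h d with h | ⟨⟨k, hk⟩, h1, h2, h3, h4, h5⟩
    · exact Or.inl ⟨h, not_false⟩
    · exact Or.inr ⟨firstIn d, samecycle_of_iterate k hk, h1, h2, h3, h4, h5⟩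

theorem vtx_zpow (i : ℤ) : ∀ d : Fin 28, vtx ((rotPerm ^ i) d) = vtx d := by
  have h1 : ∀ d : Fin 28, vtx (rotPerm d) = vtx d := by decide +kernel
  have h2 : ∀ d : Fin 28, vtx (rotPerm.symm d) = vtx d := by decide +kernel
  induction i with
  | zero => simp
  | succ n ih =>
    intro d
    rw [zpow_add_one, Equiv.Perm.mul_apply, ih, h1]
  | pred n ih =>
    intro d
    rw [zpow_sub_one, Equiv.Perm.mul_apply, ih]
    exact h2 d

theorem vtx_next {d d' : Fin 28} (h : net.Next d d') : vtx (revTable d) = vtx d' := by
  obtain ⟨i, hi⟩ := h
  rw [← hi]
  exact (vtx_zpow i _).symm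

/-! ### Connectedness -/

/-- Apply `rev` (`true`) and `rot` (`false`) in the given order. -/
def run (w : List Bool) (d : Fin 28) : Fin 28 :=
  w.foldl (fun x b => if b then revTable x else rotTable x) d

/-- Words that lead to the dart `0`. -/
def toWord : Fin 28 → List Bool :=
  ![[], [true], [false, false, true], [true, false, false, true],
    [false, false, true, false, false, true], [true, false, false, true, false, false, true],
    [true, false, false, false, true], [false, false, false, true], [false, true],
    [true, false, true], [false, false, true, false, true],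
    [true, false, false, true, false, true],
    [true, false, false, true, false, true, false, true],
    [false, false, true, false, true, false, true], [true, false, true, false, true],
    [false, true, false, true], [false, false, false, true, false, true],
    [true, false, false, false, true, false, true], [true, false, true, false, false, true],
    [false, true, false, false, true], [false, false, false, true, false, false, true],
    [true, false, false, false, true, false, false, true],
    [true, false, true, false, true, false, false, true],
    [false, true, false, true, false, false, true],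
    [false, true, false, false, false, true, false, true],
    [false, false, false, true, false, true, false, true],
    [false, true, false, true, false, true], [true, false, true, false, true, false, true]]

/-- Words that lead from the dart `0`. -/
def fromWord : Fin 28 → List Bool :=
  ![[], [true], [true, false, false], [true, false, false, true],
    [true, false, false, true, false, false], [true, false, false, true, false, false, true],
    [true, false, true], [true, false], [true, false, false, false],
    [true, false, false, false, true], [true, false, false, false, true, false, false],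
    [true, false, false, false, true, false, false, true],
    [true, false, false, false, true, false, false, false, true, false, false, true],
    [true, false, false, false, true, false, false, false, true, false, false],
    [true, false, false, false, true, false, false, false, true],
    [true, false, false, false, true, false, false, false],
    [true, false, false, false, true, false], [true, false, false, false, true, false, true],
    [true, false, false, true, false, false, false, true],
    [true, false, false, true, false, false, false], [true, false, false, true, false],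
    [true, false, false, true, false, true],
    [true, false, false, false, true, false, true, false, true],
    [true, false, false, false, true, false, true, false],
    [true, false, false, true, false, false, false, true, false],
    [true, false, false, false, true, false, false, false, true, false],
    [true, false, false, false, true, false, false, false, true, false, false, false],
    [true, false, false, false, true, false, false, false, true, false, false, false, true]]

theorem run_mem {s : Set (Fin 28)} (hs : ∀ d ∈ s, rotPerm d ∈ s ∧ revTable d ∈ s) (w : List Bool) :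
    ∀ d ∈ s, run w d ∈ s := by
  induction w with
  | nil => exact fun d hd => hd
  | cons b w ih =>
    intro d hd
    cases b
    · exact ih _ (hs d hd).1
    · exact ih _ (hs d hd).2

theorem net_connected : net.Connected := by
  intro s ⟨d, hd⟩ hs
  have h1 : ∀ d : Fin 28, run (toWord d) d = 0 := by decide +kernel
  have h2 : ∀ d : Fin 28, run (fromWord d) 0 = d := by decide +kernel
  have h0 : (0 : Fin 28) ∈ s := by
    rw [← h1 d]
    exact run_mem hs _ d hd
  refine Set.eq_univ_of_forall fun (x : Fin 28) => ?_
  rw [← h2 x]
  exact run_mem hs _ 0 h0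

/-! ### The highway paths -/

theorem step_ok {d d' : Fin 28} (k : ℕ) (h1 : (rotPerm ^ k) (revTable d) = d')
    (h2 : ∀ e : Fin 28, ¬ (¬ e.val % 2 = 0 ∧ ¬ (rotPerm e).val % 2 = 0 ∧ revTable d = rotPerm e ∧
      d' = rotPerm (rotPerm (rotPerm e)))) : net.Step d d' :=
  ⟨samecycle_of_iterate k h1, fun ⟨e, he⟩ => h2 e he⟩

theorem s0_2 : net.Step (0 : Fin 28) (2 : Fin 28) := step_ok 2 (by decide +kernel) (by decide +kernel)
theorem s2_20 : net.Step (2 : Fin 28) (20 : Fin 28) :=
  step_ok 1 (by decide +kernel) (by decide +kernel)
theorem s0_8 : net.Step (0 : Fin 28) (8 : Fin 28) := step_ok 3 (by decide +kernel) (by decide +kernel)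
theorem s8_16 : net.Step (8 : Fin 28) (16 : Fin 28) :=
  step_ok 1 (by decide +kernel) (by decide +kernel)
theorem s16_24 : net.Step (16 : Fin 28) (24 : Fin 28) :=
  step_ok 3 (by decide +kernel) (by decide +kernel)
theorem s24_14 : net.Step (24 : Fin 28) (14 : Fin 28) :=
  step_ok 3 (by decide +kernel) (by decide +kernel)
theorem s14_16 : net.Step (14 : Fin 28) (16 : Fin 28) :=
  step_ok 2 (by decide +kernel) (by decide +kernel)
theorem s16_18 : net.Step (16 : Fin 28) (18 : Fin 28) :=
  step_ok 2 (by decide +kernel) (by decide +kernel)
theorem s18_20 : net.Step (18 : Fin 28) (20 : Fin 28) :=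
  step_ok 2 (by decide +kernel) (by decide +kernel)

theorem highway_of {l : List (Fin 28)} (h1 : l.head? = some 0) (h2 : l.getLast? = some 20)
    (h3 : l.IsChain net.Step) (h4 : ∀ d ∈ l, d.val % 2 = 0) :
    net.Highway (0 : Fin 28) (21 : Fin 28) l :=
  ⟨Or.inr ⟨h1, h2, h3.imp fun _ _ h => h.1⟩, h4, h3⟩

/-- The path without the cycle. -/
def direct : List (Fin 28) := [0, 2, 20]

theorem highway_direct : net.Highway (0 : Fin 28) (21 : Fin 28) direct := by
  refine highway_of rfl rfl ?_ (by decide)
  rw [direct, List.isChain_cons_cons, List.isChain_cons_cons]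
  exact ⟨s0_2, s2_20, List.isChain_singleton _⟩

/-- The end of the path with `n` cycles. -/
def tail : ℕ → List (Fin 28)
  | 0 => [18, 20]
  | n + 1 => 24 :: 14 :: 16 :: tail n

theorem tail_chain (n : ℕ) : List.IsChain net.Step ((16 : Fin 28) :: tail n) := by
  induction n with
  | zero =>
    rw [tail, List.isChain_cons_cons, List.isChain_cons_cons]
    exact ⟨s16_18, s18_20, List.isChain_singleton _⟩
  | succ n ih =>
    rw [tail, List.isChain_cons_cons, List.isChain_cons_cons, List.isChain_cons_cons]
    exact ⟨s16_24, s24_14, s14_16, ih⟩

theorem tail_last (n : ℕ) (a : Fin 28) : (a :: tail n).getLast? = some 20 := by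
  induction n generalizing a with
  | zero => rfl
  | succ n ih =>
    rw [tail, List.getLast?_cons_cons, List.getLast?_cons_cons, List.getLast?_cons_cons]
    exact ih _

theorem tail_fwd (n : ℕ) : ∀ d ∈ tail n, d.val % 2 = 0 := by
  induction n with
  | zero => decide
  | succ n ih =>
    intro d hd
    rw [tail] at hd
    simp only [List.mem_cons] at hd
    rcases hd with rfl | rfl | rfl | h
    · decide
    · decide
    · decide
    · exact ih d h

theorem highway_tail (n : ℕ) : net.Highway (0 : Fin 28) (21 : Fin 28) (0 :: 8 :: 16 :: tail n) := by
  refine highway_of rfl ?_ ?_ ?_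
  · rw [List.getLast?_cons_cons, List.getLast?_cons_cons]
    exact tail_last n _
  · rw [List.isChain_cons_cons, List.isChain_cons_cons]
    exact ⟨s0_8, s8_16, tail_chain n⟩
  · intro d hd
    simp only [List.mem_cons] at hd
    rcases hd with rfl | rfl | rfl | h
    · decide
    · decide
    · decide
    · exact tail_fwd n d h

theorem chain_tail (n : ℕ) : net.chain (0 :: 8 :: 16 :: tail n : List (Fin 28)) =
    net.chain (0 :: 8 :: 16 :: tail 0 : List (Fin 28)) +
      n • net.chain ([24, 14, 16] : List (Fin 28)) := by
  induction n with
  | zero => simp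
  | succ n ih =>
    have h1 : net.chain (0 :: 8 :: 16 :: tail (n + 1) : List (Fin 28)) =
        net.chain (0 :: 8 :: 16 :: tail n : List (Fin 28)) +
          net.chain ([24, 14, 16] : List (Fin 28)) := by
      simp only [Network.chain, tail, List.map_cons, List.sum_cons, List.map_nil, List.sum_nil]
      abel
    rw [h1, ih, succ_nsmul]
    abel

/-- How often (with signs) a chain uses an edge. -/
noncomputable def count (a : Fin 28) : FreeAbelianGroup (Fin 28) →+ ℤ :=
  lift fun d => if d = a then 1 else if d = revTable a then -1 else 0

theorem count_relations (a : Fin 28) : net.relations ≤ (count a).ker := by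
  rw [Network.relations, AddSubgroup.closure_le]
  rintro x (⟨d, rfl⟩ | ⟨d, hd, -⟩)
  · have h : ∀ a d : Fin 28, (if d = a then (1 : ℤ) else if d = revTable a then -1 else 0) +
        (if revTable d = a then (1 : ℤ) else if revTable d = revTable a then -1 else 0) = 0 := by
      decide +kernel
    change count a (of d + of (revTable d)) = 0
    rw [map_add, count, lift_apply_of, lift_apply_of]
    exact h a d
  · exact hd.elim

theorem count_chain (a : Fin 28) (l : List (Fin 28)) : count a (net.chain l) =
    (l.map fun d => if d = a then (1 : ℤ) else if d = revTable a then -1 else 0).sum := by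
  induction l with
  | nil => simp [Network.chain]
  | cons b l ih =>
    have h : net.chain (b :: l) = of b + net.chain l := by simp [Network.chain]
    rw [h, map_add, ih, List.map_cons, List.sum_cons, count, lift_apply_of]

theorem count_eq_zero {a : Fin 28} {l : List (Fin 28)} (h1 : a ∉ l) (h2 : revTable a ∉ l) :
    count a (net.chain l) = 0 := by
  rw [count_chain]
  apply List.sum_eq_zero
  intro x hx
  obtain ⟨d, hd, rfl⟩ := List.mem_map.1 hx
  rw [if_neg (show ¬ d = a from fun h => h1 (h ▸ hd)),
    if_neg (show ¬ d = revTable a from fun h => h2 (h ▸ hd))]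

theorem count_pos {a : Fin 28} {l : List (Fin 28)} (h1 : a ∈ l) (h2 : revTable a ∉ l) :
    0 < count a (net.chain l) := by
  rw [count_chain]
  induction l with
  | nil => simp at h1
  | cons b l ih =>
    have h2' : revTable a ∉ l := fun h => h2 (List.mem_cons_of_mem _ h)
    have hb : ¬ b = revTable a := fun h => h2 (h ▸ List.mem_cons_self)
    have hnn : 0 ≤ (l.map fun d => if d = a then (1 : ℤ) else
        if d = revTable a then -1 else 0).sum := by
      apply List.sum_nonneg
      intro x hx
      obtain ⟨d, hd, rfl⟩ := List.mem_map.1 hx
      rw [if_neg (show ¬ d = revTable a from fun h => h2' (h ▸ hd))]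
      split_ifs <;> norm_num
    rw [List.map_cons, List.sum_cons, if_neg hb]
    by_cases hba : b = a
    · rw [if_pos hba]; omega
    · rw [if_neg hba]
      have : a ∈ l := by
        rcases List.mem_cons.1 h1 with h | h
        · exact absurd h.symm hba
        · exact h
      have := ih this h2'
      omega

/-- A highway path from `u` that does not use the edge from `y₀` to `x` is a part of the direct
path. -/
theorem stays {l : List (Fin 28)} : ∀ a : Fin 28, (a = 0 ∨ a = 2 ∨ a = 20) →
    (a :: l).IsChain net.Step → (∀ d ∈ l, d.val % 2 = 0) → (8 : Fin 28) ∉ l →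
    ∀ d ∈ l, d = 0 ∨ d = 2 ∨ d = 20 := by
  induction l with
  | nil => intro a _ _ _ _ d hd; simp at hd
  | cons b l ih =>
    intro a ha hch hf h8 d hd
    rw [List.isChain_cons_cons] at hch
    have key : ∀ a b : Fin 28, (a = 0 ∨ a = 2 ∨ a = 20) → b.val % 2 = 0 → b ≠ 8 →
        vtx (revTable a) = vtx b → ¬ (a = 2 ∧ b = 4) → (b = 0 ∨ b = 2 ∨ b = 20) := by
      decide +kernel
    have hb : b = 0 ∨ b = 2 ∨ b = 20 := by
      refine key a b ha (hf b List.mem_cons_self) (fun h => h8 (h ▸ List.mem_cons_self))
        (vtx_next hch.1.1) ?_
      rintro ⟨rfl, rfl⟩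
      apply hch.1.2
      refine ⟨(19 : Fin 28), ?_⟩
      change ¬ (19 : Fin 28).val % 2 = 0 ∧ ¬ (rotPerm 19).val % 2 = 0 ∧ revTable 2 = rotPerm 19 ∧
        (4 : Fin 28) = rotPerm (rotPerm (rotPerm 19))
      decide +kernel
    rcases List.mem_cons.1 hd with rfl | hd
    · exact hb
    · exact ih b hb hch.2 (fun d hd => hf d (List.mem_cons_of_mem _ hd))
        (fun h => h8 (List.mem_cons_of_mem _ h)) d hd

theorem not_both {l : List (Fin 28)} (h : net.Highway (0 : Fin 28) (21 : Fin 28) l)
    (h8 : (8 : Fin 28) ∉ l) : (16 : Fin 28) ∉ l := by
  obtain ⟨h1, h2, h3⟩ := h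
  rcases h1 with ⟨rfl, -⟩ | ⟨h1, -, -⟩
  · simp
  · cases l with
    | nil => simp
    | cons a l =>
      simp only [List.head?_cons, Option.some.injEq] at h1
      subst h1
      have h4 := stays (l := l) (0 : Fin 28) (Or.inl rfl) h3
        (fun d hd => h2 d (List.mem_cons_of_mem _ hd)) (fun h => h8 (List.mem_cons_of_mem _ h))
      intro h16
      rcases List.mem_cons.1 h16 with h | h
      · exact absurd h (by decide)
      · have := h4 _ h
        revert this
        decide

theorem mem_H1 {l p : List (Fin 28)} (hl : net.Walk (0 : Fin 28) (21 : Fin 28) l)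
    (hp : net.Walk (0 : Fin 28) (21 : Fin 28) p) :
    (QuotientAddGroup.mk (net.chain l - net.chain p) :
      FreeAbelianGroup net.Dart ⧸ net.relations) ∈ net.H1 := by
  refine ⟨net.chain l - net.chain p, ?_, rfl⟩
  change net.boundary (net.chain l - net.chain p) = 0
  rw [map_sub, net.boundary_walk hl, net.boundary_walk hp, sub_self]

theorem main {p : List (Fin 28)} (hp : net.Walk (0 : Fin 28) (21 : Fin 28) p) :
    ¬ IsPolyhedron (net.classes (0 : Fin 28) (21 : Fin 28) p) := by
  rintro ⟨m, φ, b, hX⟩
  let y : net.H1 := ⟨_, mem_H1 highway_direct.1 hp⟩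
  let x : ℕ → net.H1 := fun n => ⟨_, mem_H1 (highway_tail n).1 hp⟩
  have hy : y ∈ net.classes (0 : Fin 28) (21 : Fin 28) p := ⟨_, highway_direct, rfl⟩
  have hx : ∀ n, x n ∈ net.classes (0 : Fin 28) (21 : Fin 28) p := fun n =>
    ⟨_, highway_tail n, rfl⟩
  have hxn : ∀ n, x n = x 0 + n • (x 1 - x 0) := by
    intro n
    apply Subtype.ext
    have e : net.chain (0 :: 8 :: 16 :: tail n : List (Fin 28)) - net.chain p =
        (net.chain (0 :: 8 :: 16 :: tail 0 : List (Fin 28)) - net.chain p) +
        n • ((net.chain (0 :: 8 :: 16 :: tail 1 : List (Fin 28)) - net.chain p) -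
          (net.chain (0 :: 8 :: 16 :: tail 0 : List (Fin 28)) - net.chain p)) := by
      rw [chain_tail n, chain_tail 1, one_nsmul]
      abel_nf
    exact congrArg (QuotientAddGroup.mk' net.relations) e
  have hc : ∀ i, φ i (x 1 - x 0) ≤ 0 := by
    intro i
    by_contra hcon
    push Not at hcon
    obtain ⟨n, hn⟩ := Archimedean.arch (b i - φ i (x 0) + 1) hcon
    have h1 := hx n
    rw [hX, hxn n] at h1
    have h2 := h1 i
    rw [map_add, map_nsmul] at h2
    linarith
  have hmem : y + (x 1 - x 0) ∈ net.classes (0 : Fin 28) (21 : Fin 28) p := by
    rw [hX] at hy ⊢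
    intro i
    rw [map_add]
    have h1 := hy i
    have h2 := hc i
    linarith
  obtain ⟨l, hl, hle⟩ := hmem
  have hcount : ∀ a : Fin 28, count a (net.chain l) = count a (net.chain direct) +
      count a (net.chain ([24, 14, 16] : List (Fin 28))) := by
    intro a
    have h1 := congrArg (QuotientAddGroup.lift net.relations (count a) (count_relations a)) hle
    have h2 : QuotientAddGroup.lift net.relations (count a) (count_relations a)
        ((y + (x 1 - x 0) : net.H1) : FreeAbelianGroup net.Dart ⧸ net.relations) =
        count a ((net.chain direct - net.chain p) +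
          ((net.chain (0 :: 8 :: 16 :: tail 1 : List (Fin 28)) - net.chain p) -
          (net.chain (0 :: 8 :: 16 :: tail 0 : List (Fin 28)) - net.chain p))) := rfl
    have h3 : QuotientAddGroup.lift net.relations (count a) (count_relations a)
        (QuotientAddGroup.mk (net.chain l - net.chain p)) =
        count a (net.chain l - net.chain p) := rfl
    rw [h2, h3, chain_tail 1, one_nsmul] at h1
    simp only [map_add, map_sub] at h1
    linarith
  have hodd : ∀ a : Fin 28, ¬ a.val % 2 = 0 → a ∉ l := fun a ha h => ha (hl.2.1 a h)
  have h8 : (8 : Fin 28) ∉ l := by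
    intro h
    have h1 := count_pos h (hodd (revTable 8) (by decide))
    rw [hcount 8, count_eq_zero (by decide) (by decide), count_eq_zero (by decide) (by decide)] at h1
    exact absurd h1 (by norm_num)
  have h16 := not_both hl h8
  have h2 := hcount 16
  rw [count_eq_zero h16 (hodd (revTable 16) (by decide)),
    count_eq_zero (l := direct) (by decide) (by decide)] at h2
  have h3 := count_pos (a := 16) (l := [24, 14, 16]) (by decide) (by decide)
  omega

/-- **There are a connected network in a compact connected oriented surface with boundary and two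
boundary vertices for which the set of homology classes of highway paths is not the set of lattice
points of a polyhedron.** -/
theorem result : ∃ N : Network, N.Connected ∧ (∃ d, ¬ N.disc d) ∧ ∃ u v : N.Dart,
    N.IsBoundary u ∧ N.IsBoundary v ∧ (∃ p, N.Walk u v p) ∧
    ∀ p, N.Walk u v p → ¬ IsPolyhedron (N.classes u v p) :=
  ⟨net, net_connected, ⟨(0 : Fin 28), not_false⟩, (0 : Fin 28), (21 : Fin 28),
    (by change rotPerm 0 = 0; decide +kernel), (by change rotPerm 21 = 21; decide +kernel),
    ⟨direct, highway_direct.1⟩, fun _ hp => main hp⟩

end Pool.Agent.Results.MP_3d6951_co.DetachedCycle
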